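import Pool.Agent.Lib.MP_56e41f_co.KX.M1

/-!
The edge-rooted bound.
-/

set_option linter.unusedSectionVars false

open Finset
open scoped Nat Classical

namespace MP56e41fKX

variable {V : Type*} [Fintype V] [DecidableEq V]
variable (N : V → Finset V) (p : (k : ℕ) → Fin (k + 1))

/-- the edges of the tree with the vertices `0, ..., k` -/
inductive Ed (p : (k : ℕ) → Fin (k + 1)) : (k : ℕ) → Fin (k + 1) → Fin (k + 1) → Prop
  | new (k : ℕ) : Ed p (k + 1) (Fin.castSucc (p k)) (Fin.last (k + 1))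
  | new' (k : ℕ) : Ed p (k + 1) (Fin.last (k + 1)) (Fin.castSucc (p k))
  | old (k : ℕ) (q r : Fin (k + 1)) : Ed p k q r → Ed p (k + 1) (Fin.castSucc q) (Fin.castSucc r)

/-- the embeddings with the images `z`, `y` of `q`, `r` and the other images in `D` -/
noncomputable def F2 (k : ℕ) (q r : Fin (k + 1)) (z y : V) (D : Finset V) :
    Finset (Fin (k + 1) → V) :=
  Finset.univ.filter (fun x => Good N p k x ∧ x q = z ∧ x r = y ∧ ∀ j, j ≠ q → j ≠ r → x j ∈ D)

theorem mem_F2 {k : ℕ} {q r : Fin (k + 1)} {z y : V} {D : Finset V} {x : Fin (k + 1) → V} :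
    x ∈ F2 N p k q r z y D ↔
      Good N p k x ∧ x q = z ∧ x r = y ∧ ∀ j, j ≠ q → j ≠ r → x j ∈ D := by
  simp [F2]

theorem F2_comm (k : ℕ) (q r : Fin (k + 1)) (z y : V) (D : Finset V) :
    F2 N p k q r z y D = F2 N p k r q y z D := by
  ext x
  rw [mem_F2, mem_F2]
  constructor
  · rintro ⟨h1, h2, h3, h4⟩; exact ⟨h1, h3, h2, fun j h5 h6 => h4 j h6 h5⟩
  · rintro ⟨h1, h2, h3, h4⟩; exact ⟨h1, h3, h2, fun j h5 h6 => h4 j h6 h5⟩

theorem sdiff_im_snoc {k : ℕ} (D : Finset V) (x : Fin (k + 1) → V) (y : V) :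
    D \ im (Fin.snoc (α := fun _ => V) x y) = (D \ im x).erase y := by
  rw [im_snoc]
  ext a
  simp only [Finset.mem_sdiff, Finset.mem_insert, Finset.mem_erase]
  tauto

theorem F2_old {k : ℕ} (q r : Fin (k + 1)) (z y : V) (D : Finset V)
    (g : (Fin (k + 2) → V) → ℕ) :
    ∑ x ∈ F2 N p (k + 1) (Fin.castSucc q) (Fin.castSucc r) z y D, g x
      = ∑ x ∈ F2 N p k q r z y D, ∑ w ∈ (D \ im x) ∩ N (x (p k)),
          g (Fin.snoc (α := fun _ => V) x w) := by
  rw [F2, F2]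
  refine sum_split _ _ _ (fun x w => ?_) g
  rw [good_snoc, Fin.snoc_castSucc, Fin.snoc_castSucc, forall_last_lt, Fin.snoc_last]
  simp only [Fin.snoc_castSucc, Finset.mem_inter, Finset.mem_sdiff]
  constructor
  · rintro ⟨⟨h1, h2, h3⟩, h4, h4', h5, h6⟩
    refine ⟨⟨h1, h4, h4', fun j hj hj' => h6 j (fun e => hj (Fin.castSucc_injective _ e))
      fun e => hj' (Fin.castSucc_injective _ e)⟩,
      ⟨h5 (Fin.castSucc_lt_last q).ne' (Fin.castSucc_lt_last r).ne', h3⟩, h2⟩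
  · rintro ⟨⟨h1, h2, h2', h3⟩, ⟨h4, h5⟩, h6⟩
    exact ⟨⟨h1, h6, h5⟩, h2, h2', fun _ _ => h4,
      fun j hj hj' => h3 j (fun e => hj (by rw [e])) fun e => hj' (by rw [e])⟩

theorem F2_new {k : ℕ} (z y : V) (D : Finset V) (hz : z ∉ D) (hy : y ∉ D) :
    ∑ x ∈ F2 N p (k + 1) (Fin.castSucc (p k)) (Fin.last (k + 1)) z y D,
        K fact (sk N p (k + 1) x) (D \ im x)
      ≤ ∑ x ∈ F1 N p k (p k) z D, K fact (sr N p k (p k) x) (D \ im x) := by
  have h1 : ∑ x ∈ F2 N p (k + 1) (Fin.castSucc (p k)) (Fin.last (k + 1)) z y D,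
        K fact (sk N p (k + 1) x) (D \ im x)
      = ∑ x ∈ Finset.univ.filter (fun x : Fin (k + 1) → V => x ∈ F1 N p k (p k) z D ∧
          y ∈ N (x (p k)) ∧ y ∉ im x), ∑ w ∈ {y},
          K fact (sk N p (k + 1) (Fin.snoc (α := fun _ => V) x w))
            (D \ im (Fin.snoc (α := fun _ => V) x w)) := by
    rw [F2]
    refine sum_split _ _ _ (fun x w => ?_) _
    rw [good_snoc, forall_last_lt, Fin.snoc_last, mem_F1]
    simp only [Fin.snoc_castSucc, Finset.mem_singleton]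
    constructor
    · rintro ⟨⟨h1, h2, h3⟩, h4, rfl, h5, h6⟩
      exact ⟨⟨⟨h1, h4, fun j hj => h6 j (fun e => hj (Fin.castSucc_injective _ e))
        (Fin.castSucc_lt_last j).ne⟩, h2, h3⟩, rfl⟩
    · rintro ⟨⟨⟨h1, h4, h6⟩, h2, h3⟩, rfl⟩
      exact ⟨⟨h1, h2, h3⟩, h4, rfl, fun _ e => absurd rfl e,
        fun j hj _ => h6 j fun e => hj (by rw [e])⟩
  rw [h1]
  simp only [Finset.sum_singleton]
  have h2 : ∀ x : Fin (k + 1) → V, K fact (sk N p (k + 1) (Fin.snoc (α := fun _ => V) x y))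
      (D \ im (Fin.snoc (α := fun _ => V) x y)) = K fact (sr N p k (p k) x) (D \ im x) := by
    intro x
    rw [K_perm fact (sk_perm N p k x y), sdiff_im_snoc, Finset.erase_eq_of_notMem]
    intro h
    exact hy (Finset.mem_sdiff.mp h).1
  rw [Finset.sum_congr rfl fun x _ => h2 x]
  refine Finset.sum_le_sum_of_subset fun x hx => ?_
  exact (Finset.mem_filter.mp hx).2.1

/-- THE EDGE-ROOTED BOUND. -/
theorem A2 (hN : ∀ a b, a ∈ N b → b ∈ N a) (k : ℕ) (q r : Fin (k + 1)) (h : Ed p k q r) :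
    ∀ (z y : V) (D : Finset V), z ∉ D → y ∉ D →
      ∑ x ∈ F2 N p k q r z y D, K fact (sk N p k x) (D \ im x) ≤ (#D)! := by
  induction h with
  | new k =>
    intro z y D hz hy
    exact le_trans (F2_new N p z y D hz hy) (M1 N p hN k (p k) z D hz)
  | new' k =>
    intro z y D hz hy
    rw [F2_comm]
    exact le_trans (F2_new N p y z D hy hz) (M1 N p hN k (p k) y D hy)
  | old k q r hE ih =>
    intro z y D hz hy
    rw [F2_old]
    refine le_trans (Finset.sum_le_sum fun x _ => ?_) (ih z y D hz hy)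
    cases k with
    | zero => cases hE
    | succ k =>
      refine le_trans (le_of_eq (Finset.sum_congr rfl fun w _ => ?_))
        (step (N (x (p (k + 1)))) (sk N p (k + 1) x) (D \ im x))
      rw [sk_snoc, sdiff_im_snoc]

/-- every vertex is on an edge -/
theorem exists_ed : ∀ (k : ℕ) (r : Fin (k + 2)), ∃ q, Ed p (k + 1) q r
  | 0, r => by
    have h0 : p 0 = 0 := Fin.ext (by have := (p 0).isLt; omega)
    refine Fin.lastCases ⟨_, Ed.new 0⟩ (fun i => ?_) r
    have hi : i = p 0 := Fin.ext (by have h1 := i.isLt; have h2 := (p 0).isLt; omega)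
    rw [hi]
    exact ⟨_, Ed.new' 0⟩
  | k + 1, r => by
    refine Fin.lastCases ⟨_, Ed.new (k + 1)⟩ (fun i => ?_) r
    obtain ⟨q, hq⟩ := exists_ed k i
    exact ⟨_, Ed.old (k + 1) q i hq⟩

theorem ed_adj (hN : ∀ a b, a ∈ N b → b ∈ N a) (k : ℕ) (q r : Fin (k + 1)) (h : Ed p k q r) :
    ∀ x : Fin (k + 1) → V, Good N p k x → x q ∈ N (x r) := by
  induction h with
  | new k =>
    intro x hx
    obtain ⟨x', y, rfl⟩ := exists_snoc x
    rw [good_snoc] at hx
    rw [Fin.snoc_castSucc, Fin.snoc_last]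
    exact hN _ _ hx.2.1
  | new' k =>
    intro x hx
    obtain ⟨x', y, rfl⟩ := exists_snoc x
    rw [good_snoc] at hx
    rw [Fin.snoc_castSucc, Fin.snoc_last]
    exact hx.2.1
  | old k q r hE ih =>
    intro x hx
    obtain ⟨x', y, rfl⟩ := exists_snoc x
    rw [good_snoc] at hx
    rw [Fin.snoc_castSucc, Fin.snoc_castSucc]
    exact ih x' hx.1

end MP56e41fKX
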