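import Pool.Agent.Lib.MP_56e41f_co.KX.A2

/-!
The count: if there is no copy of the tree then the sum of the degrees is small.
-/

set_option linter.unusedSectionVars false

open Finset
open scoped Nat Classical

namespace MP56e41fKX

variable {V : Type*} [Fintype V] [DecidableEq V]
variable (N : V → Finset V) (p : (k : ℕ) → Fin (k + 1))

/-- all embeddings of the tree with the vertices `0, ..., k` -/
noncomputable def All (k : ℕ) : Finset (Fin (k + 1) → V) := Finset.univ.filter (Good N p k)

/-- the total time of the `(k + 1)`-st search -/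
noncomputable def Tot (k : ℕ) : ℕ :=
  ∑ x ∈ All N p k, K fact (N (x (p k)) :: sk N p k x) (Finset.univ \ im x)

/-- the potential -/
noncomputable def Pot (k : ℕ) : ℕ :=
  ∑ x ∈ All N p k, K fact1 (sk N p k x) (Finset.univ \ im x)

theorem pot_step (k : ℕ) : Pot N p (k + 1) ≤ Tot N p (k + 1) + Pot N p (k + 2) := by
  have h1 : Pot N p (k + 2) = ∑ x ∈ All N p (k + 1),
      ∑ y ∈ (Finset.univ \ im x) ∩ N (x (p (k + 1))),
        K fact1 (N (x (p (k + 1))) :: sk N p (k + 1) x) ((Finset.univ \ im x).erase y) := by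
    rw [Pot, All, sum_split (Good N p (k + 2)) (Good N p (k + 1))
      (fun x => (Finset.univ \ im x) ∩ N (x (p (k + 1))))]
    · refine Finset.sum_congr rfl fun x _ => Finset.sum_congr rfl fun y _ => ?_
      rw [sk_snoc, sdiff_im_snoc]
    · intro x y
      rw [good_snoc]
      simp only [Finset.mem_inter, Finset.mem_sdiff, Finset.mem_univ, true_and]
      tauto
  rw [h1, Tot, Pot, ← Finset.sum_add_distrib]
  exact Finset.sum_le_sum fun x _ => pot (N (x (p (k + 1)))) (sk N p (k + 1) x) _

theorem pot_one (hN : ∀ a b, a ∈ N b → b ∈ N a) (hirr : ∀ a, a ∉ N a) :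
    Pot N p 1 = (∑ v, #(N v)) * (Fintype.card V - 1)! := by
  rw [Pot, All, sum_split (Good N p 1) (fun _ : Fin 1 → V => True)
      (fun x => N (x 0))]
  · have h1 : ∀ x : Fin 1 → V, ∀ y ∈ N (x 0),
        K fact1 (sk N p 1 (Fin.snoc (α := fun _ => V) x y))
          (Finset.univ \ im (Fin.snoc (α := fun _ => V) x y)) = (Fintype.card V - 1)! := by
      intro x y hy
      have h2 : #(im (Fin.snoc (α := fun _ => V) x y)) = 2 := by
        have h3 : im (Fin.snoc (α := fun _ => V) x y) = {y, x 0} := by
          rw [im_snoc]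
          ext a
          simp only [Finset.mem_insert, mem_im, Finset.mem_singleton]
          constructor
          · rintro (h | ⟨j, hj⟩)
            · exact Or.inl h
            · right
              have : j = 0 := Fin.ext (by have := j.isLt; omega)
              rw [← hj, this]
          · rintro (h | h)
            · exact Or.inl h
            · exact Or.inr ⟨0, h.symm⟩
        rw [h3, Finset.card_pair]
        intro e
        rw [e] at hy
        exact hirr _ hy
      have h4 := Finset.card_le_univ (im (Fin.snoc (α := fun _ => V) x y))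
      have h5 : #(Finset.univ \ im (Fin.snoc (α := fun _ => V) x y)) = Fintype.card V - 2 := by
        rw [Finset.card_sdiff_of_subset (Finset.subset_univ _), h2, Finset.card_univ]
      have h6 : sk N p 1 (Fin.snoc (α := fun _ => V) x y) = [] := rfl
      rw [h6, K_nil, fact1, h5]
      congr 1
      omega
    have h7 : ∀ x : Fin 1 → V, ∑ y ∈ N (x 0),
        K fact1 (sk N p 1 (Fin.snoc (α := fun _ => V) x y))
          (Finset.univ \ im (Fin.snoc (α := fun _ => V) x y))
        = #(N (x 0)) * (Fintype.card V - 1)! := by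
      intro x
      rw [Finset.sum_congr rfl (h1 x), Finset.sum_const, smul_eq_mul]
    rw [Finset.sum_congr rfl fun x _ => h7 x, ← Finset.sum_mul]
    congr 1
    simp only [Finset.filter_true]
    refine Fintype.sum_equiv (Equiv.funUnique (Fin 1) V) _ _ (fun x => ?_)
    rfl
  · intro x y
    rw [good_snoc]
    have h0 : p 0 = 0 := Fin.ext (by have := (p 0).isLt; omega)
    rw [h0]
    constructor
    · rintro ⟨_, h, _⟩; exact ⟨trivial, h⟩
    · rintro ⟨_, h⟩
      refine ⟨trivial, h, ?_⟩
      intro hc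
      obtain ⟨j, hj⟩ := (mem_im x y).mp hc
      have h1 : j = 0 := Fin.ext (by have := j.isLt; omega)
      rw [h1] at hj
      rw [hj] at h
      exact hirr _ h

theorem out_S2 {k : ℕ} (q r : Fin (k + 1)) (z y : V) (D C : Finset V) (hz : z ∉ D) (hy : y ∉ D)
    (f : Finset V → ℕ) (L : (Fin (k + 1) → V) → List (Finset V)) :
    ∑ x ∈ F2 N p k q r z y D,
        ∑ S ∈ ((D \ im x) \ C).powerset, (#S)! * K f (L x) ((D \ im x) \ S)
      = ∑ S ∈ (D \ C).powerset, (#S)! * ∑ x ∈ F2 N p k q r z y (D \ S),
          K f (L x) ((D \ S) \ im x) := by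
  simp only [Finset.mul_sum]
  rw [Finset.sum_comm' (s' := fun S => F2 N p k q r z y (D \ S)) (t' := (D \ C).powerset)]
  · refine Finset.sum_congr rfl fun S _ => Finset.sum_congr rfl fun x _ => ?_
    rw [sdiff_right_comm]
  · intro x S
    rw [mem_F2, mem_F2]
    simp only [Finset.mem_powerset, Finset.subset_iff, Finset.mem_sdiff]
    constructor
    · rintro ⟨⟨h1, h2, h2', h3⟩, h4⟩
      refine ⟨⟨h1, h2, h2', fun j hj hj' => ⟨h3 j hj hj', fun hS => ?_⟩⟩,
        fun a ha => ⟨(h4 ha).1.1, (h4 ha).2⟩⟩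
      exact (h4 hS).1.2 ((mem_im x _).mpr ⟨j, rfl⟩)
    · rintro ⟨⟨h1, h2, h2', h3⟩, h4⟩
      refine ⟨⟨h1, h2, h2', fun j hj hj' => (h3 j hj hj').1⟩,
        fun a ha => ⟨⟨(h4 ha).1, fun hc => ?_⟩, (h4 ha).2⟩⟩
      obtain ⟨j, hj⟩ := (mem_im x a).mp hc
      by_cases hjq : j = q
      · exact hz (by rw [← h2, ← hjq, hj]; exact (h4 ha).1)
      by_cases hjr : j = r
      · exact hy (by rw [← h2', ← hjr, hj]; exact (h4 ha).1)
      · exact (h3 j hjq hjr).2 (hj ▸ ha)

/-- the time of the search from `y`, when the edge `(z, y)` is the root -/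
theorem tot_zy (hN : ∀ a b, a ∈ N b → b ∈ N a) (k : ℕ) (q r : Fin (k + 1)) (h : Ed p k q r)
    (z y : V) :
    ∑ x ∈ (All N p k).filter (fun x => x q = z ∧ x r = y),
        K fact (N (x r) :: sk N p k x) (Finset.univ \ im x)
      ≤ ∑ S ∈ (((Finset.univ.erase z).erase y) \ N y).powerset,
          (#S)! * (#(((Finset.univ.erase z).erase y) \ S))! := by
  set D : Finset V := (Finset.univ.erase z).erase y with hD
  have hzD : z ∉ D := by simp [hD]
  have hyD : y ∉ D := by simp [hD]
  have h1 : ∀ x ∈ (All N p k).filter (fun x => x q = z ∧ x r = y),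
      K fact (N (x r) :: sk N p k x) (Finset.univ \ im x)
        = ∑ S ∈ ((D \ im x) \ N y).powerset, (#S)! * K fact (sk N p k x) ((D \ im x) \ S) := by
    intro x hx
    obtain ⟨_, h2, h3⟩ := Finset.mem_filter.mp hx
    have h4 : Finset.univ \ im x = D \ im x := by
      ext a
      simp only [hD, Finset.mem_sdiff, Finset.mem_univ, true_and, Finset.mem_erase, and_true]
      constructor
      · intro ha
        refine ⟨⟨fun e => ha ?_, fun e => ha ?_⟩, ha⟩
        · exact (mem_im x a).mpr ⟨r, by rw [h3, e]⟩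
        · exact (mem_im x a).mpr ⟨q, by rw [h2, e]⟩
      · exact fun ha => ha.2
    rw [h3, h4, K_cons]
  rw [Finset.sum_congr rfl h1]
  have h5 : (All N p k).filter (fun x => x q = z ∧ x r = y) = F2 N p k q r z y D := by
    ext x
    rw [mem_F2, Finset.mem_filter, All, Finset.mem_filter]
    constructor
    · rintro ⟨⟨_, h6⟩, h7, h8⟩
      refine ⟨h6, h7, h8, fun j hj hj' => ?_⟩
      have hi := good_inj N p k x h6
      simp only [hD, Finset.mem_erase, Finset.mem_univ, and_true]
      exact ⟨fun e => hj' (hi (e.trans h8.symm)), fun e => hj (hi (e.trans h7.symm))⟩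
    · rintro ⟨h6, h7, h8, _⟩
      exact ⟨⟨Finset.mem_univ _, h6⟩, h7, h8⟩
  rw [h5, out_S2 N p q r z y D (N y) hzD hyD]
  refine Finset.sum_le_sum fun S _ => Nat.mul_le_mul_left _ ?_
  exact A2 N p hN k q r h z y (D \ S) (fun h => hzD (Finset.mem_sdiff.mp h).1)
    (fun h => hyD (Finset.mem_sdiff.mp h).1)

theorem sum_z (hirr : ∀ a, a ∉ N a) (y : V) :
    ∑ z ∈ N y, ∑ S ∈ (((Finset.univ.erase z).erase y) \ N y).powerset,
          (#S)! * (#(((Finset.univ.erase z).erase y) \ S))! ≤ (Fintype.card V - 1)! := by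
  rcases Finset.eq_empty_or_nonempty (N y) with h | h
  · rw [h]; simp
  have hpos : 0 < #(N y) := Finset.card_pos.mpr h
  refine Nat.le_of_mul_le_mul_left ?_ hpos
  have key : ∀ z ∈ N y, #(N y) * ∑ S ∈ (((Finset.univ.erase z).erase y) \ N y).powerset,
          (#S)! * (#(((Finset.univ.erase z).erase y) \ S))! = (Fintype.card V - 1)! := by
    intro z hz
    have hzy : z ≠ y := fun e => hirr y (e ▸ hz)
    have h1 := ident ((Finset.univ.erase z).erase y) (N y)
    have h2 : (Finset.univ.erase z).erase y ∩ N y = (N y).erase z := by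
      ext a
      simp only [Finset.mem_inter, Finset.mem_erase, Finset.mem_univ, and_true]
      constructor
      · rintro ⟨⟨_, h3⟩, h4⟩; exact ⟨h3, h4⟩
      · rintro ⟨h3, h4⟩; exact ⟨⟨fun e => hirr y (e ▸ h4), h3⟩, h4⟩
    have h3 : #((Finset.univ.erase z).erase y) + 1 = Fintype.card V - 1 := by
      rw [Finset.card_erase_add_one (Finset.mem_erase.mpr ⟨hzy.symm, Finset.mem_univ _⟩),
        Finset.card_erase_of_mem (Finset.mem_univ _), Finset.card_univ]
    rw [h2, Finset.card_erase_add_one hz, h3] at h1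
    exact h1
  rw [Finset.mul_sum, Finset.sum_congr rfl key, Finset.sum_const, smul_eq_mul]

theorem tot_le (hN : ∀ a b, a ∈ N b → b ∈ N a) (hirr : ∀ a, a ∉ N a) (k : ℕ) :
    Tot N p (k + 1)
      ≤ #(Finset.univ.filter (fun v => (N v).Nonempty)) * (Fintype.card V - 1)! := by
  obtain ⟨q, hq⟩ := exists_ed p k (p (k + 1))
  have h1 : Tot N p (k + 1) = ∑ y : V, ∑ z ∈ N y,
      ∑ x ∈ (All N p (k + 1)).filter (fun x => x q = z ∧ x (p (k + 1)) = y),
        K fact (N (x (p (k + 1))) :: sk N p (k + 1) x) (Finset.univ \ im x) := by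
    rw [Tot]
    rw [← Finset.sum_fiberwise_of_maps_to (g := fun x : Fin (k + 2) → V => x (p (k + 1)))
      (t := (Finset.univ : Finset V)) (fun x _ => Finset.mem_univ _)]
    refine Finset.sum_congr rfl fun y _ => ?_
    rw [← Finset.sum_fiberwise_of_maps_to (g := fun x : Fin (k + 2) → V => x q) (t := N y)]
    · refine Finset.sum_congr rfl fun z _ => Finset.sum_congr ?_ fun x _ => rfl
      rw [Finset.filter_filter]
      ext x
      simp only [Finset.mem_filter]
      tauto
    · intro x hx
      obtain ⟨h2, h3⟩ := Finset.mem_filter.mp hx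
      rw [All, Finset.mem_filter] at h2
      have h4 := ed_adj N p hN (k + 1) q (p (k + 1)) hq x h2.2
      rw [← h3]
      exact h4
  rw [h1]
  have h2 : ∀ y ∈ (Finset.univ : Finset V), ∑ z ∈ N y,
      ∑ x ∈ (All N p (k + 1)).filter (fun x => x q = z ∧ x (p (k + 1)) = y),
        K fact (N (x (p (k + 1))) :: sk N p (k + 1) x) (Finset.univ \ im x)
      ≤ if (N y).Nonempty then (Fintype.card V - 1)! else 0 := by
    intro y _
    by_cases hy : (N y).Nonempty
    · rw [if_pos hy]
      refine le_trans (Finset.sum_le_sum fun z _ => ?_) (sum_z N hirr y)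
      exact tot_zy N p hN (k + 1) q (p (k + 1)) hq z y
    · rw [if_neg hy, Finset.not_nonempty_iff_eq_empty.mp hy]
      simp
  refine le_trans (Finset.sum_le_sum h2) ?_
  rw [← Finset.sum_filter, Finset.sum_const, smul_eq_mul]

/-- MAIN COUNT: if the tree with the vertices `0, ..., m + 1` (`m + 1` edges) has no embedding
then the sum of the degrees is at most `m` times the number of non-isolated vertices. -/
theorem main_count_noniso (hN : ∀ a b, a ∈ N b → b ∈ N a) (hirr : ∀ a, a ∉ N a) (m : ℕ)
    (hno : ∀ x : Fin (m + 2) → V, ¬ Good N p (m + 1) x) :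
    ∑ v, #(N v) ≤ m * #(Finset.univ.filter (fun v => (N v).Nonempty)) := by
  set c := #(Finset.univ.filter (fun v => (N v).Nonempty)) with hc
  have h1 : ∀ j : ℕ, Pot N p 1 ≤ j * (c * (Fintype.card V - 1)!) + Pot N p (j + 1) := by
    intro j
    induction j with
    | zero => simp
    | succ j ih =>
      have h2 := pot_step N p j
      have h3 := tot_le N p hN hirr j
      calc Pot N p 1 ≤ j * (c * (Fintype.card V - 1)!) + Pot N p (j + 1) := ih
        _ ≤ j * (c * (Fintype.card V - 1)!)
            + (c * (Fintype.card V - 1)! + Pot N p (j + 2)) :=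
          Nat.add_le_add_left (h2.trans (Nat.add_le_add_right h3 _)) _
        _ = (j + 1) * (c * (Fintype.card V - 1)!) + Pot N p (j + 1 + 1) := by ring
  have h4 := h1 m
  have h5 : Pot N p (m + 1) = 0 := by
    rw [Pot]
    refine Finset.sum_eq_zero fun x hx => ?_
    rw [All, Finset.mem_filter] at hx
    exact absurd hx.2 (hno x)
  rw [h5, add_zero, pot_one N p hN hirr, ← mul_assoc] at h4
  exact Nat.le_of_mul_le_mul_right h4 (Nat.factorial_pos _)

/-- MAIN COUNT with all vertices. -/
theorem main_count (hN : ∀ a b, a ∈ N b → b ∈ N a) (hirr : ∀ a, a ∉ N a) (m : ℕ)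
    (hno : ∀ x : Fin (m + 2) → V, ¬ Good N p (m + 1) x) :
    ∑ v, #(N v) ≤ m * Fintype.card V :=
  (main_count_noniso N p hN hirr m hno).trans (Nat.mul_le_mul_left m (Finset.card_le_univ _))

end MP56e41fKX
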