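import Pool.Agent.Lib.MP_56e41f_co.KX.K

/-!
Injective homomorphisms of a tree given by a parent function `p`, where the vertex `k + 1` is
attached at `p k`, and the lists of seekers.
-/

set_option linter.unusedSectionVars false

open Finset
open scoped Nat Classical

namespace MP56e41fKX

variable {V : Type*} [Fintype V] [DecidableEq V]

/-- the set of images -/
def im {k : ℕ} (x : Fin k → V) : Finset V := Finset.univ.image x

theorem mem_im {k : ℕ} (x : Fin k → V) (a : V) : a ∈ im x ↔ ∃ j, x j = a := by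
  simp [im]

theorem im_snoc {k : ℕ} (x : Fin (k + 1) → V) (y : V) :
    im (Fin.snoc (α := fun _ => V) x y) = insert y (im x) := by
  ext a
  simp only [mem_im, Finset.mem_insert]
  constructor
  · rintro ⟨j, hj⟩
    revert hj
    refine Fin.lastCases ?_ (fun i => ?_) j
    · intro h
      rw [Fin.snoc_last] at h
      exact Or.inl h.symm
    · intro h
      rw [Fin.snoc_castSucc] at h
      exact Or.inr ⟨i, h⟩
  · rintro (h | ⟨i, hi⟩)
    · exact ⟨Fin.last _, by rw [Fin.snoc_last, h]⟩
    · exact ⟨Fin.castSucc i, by rw [Fin.snoc_castSucc, hi]⟩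

/-- injective homomorphisms of the tree with the vertices `0, ..., k`; the vertex `j + 1` is
adjacent to `p j`. -/
def Good (N : V → Finset V) (p : (k : ℕ) → Fin (k + 1)) : (k : ℕ) → (Fin (k + 1) → V) → Prop
  | 0, _ => True
  | k + 1, x => Good N p k (Fin.init x) ∧ x (Fin.last (k + 1)) ∈ N (Fin.init x (p k)) ∧
      x (Fin.last (k + 1)) ∉ im (Fin.init x)

/-- the seekers when the root is the edge of the vertices `0` and `1` -/
def sk (N : V → Finset V) (p : (k : ℕ) → Fin (k + 1)) :
    (k : ℕ) → (Fin (k + 1) → V) → List (Finset V)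
  | 0, _ => []
  | 1, _ => []
  | k + 2, x => N (Fin.init x (p (k + 1))) :: sk N p (k + 1) (Fin.init x)

/-- the seekers when the root is the vertex `r` -/
def sr (N : V → Finset V) (p : (k : ℕ) → Fin (k + 1)) :
    (k : ℕ) → Fin (k + 1) → (Fin (k + 1) → V) → List (Finset V)
  | 0, _, _ => []
  | k + 1, r, x => Fin.lastCases (motive := fun _ => List (Finset V))
      (N (x (Fin.last (k + 1))) :: sr N p k (p k) (Fin.init x))
      (fun r' => N (Fin.init x (p k)) :: sr N p k r' (Fin.init x)) r

variable (N : V → Finset V) (p : (k : ℕ) → Fin (k + 1))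

theorem init_snoc' {k : ℕ} (x : Fin (k + 1) → V) (y : V) :
    Fin.init (α := fun _ => V) (Fin.snoc (α := fun _ => V) x y) = x :=
  Fin.init_snoc (α := fun _ => V) y x

theorem good_snoc {k : ℕ} (x : Fin (k + 1) → V) (y : V) :
    Good N p (k + 1) (Fin.snoc (α := fun _ => V) x y) ↔
      Good N p k x ∧ y ∈ N (x (p k)) ∧ y ∉ im x := by
  rw [Good, init_snoc', Fin.snoc_last]

theorem sk_snoc {k : ℕ} (x : Fin (k + 2) → V) (y : V) :
    sk N p (k + 2) (Fin.snoc (α := fun _ => V) x y) = N (x (p (k + 1))) :: sk N p (k + 1) x := by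
  rw [sk, init_snoc']

theorem sr_last {k : ℕ} (x : Fin (k + 1) → V) (y : V) :
    sr N p (k + 1) (Fin.last (k + 1)) (Fin.snoc (α := fun _ => V) x y)
      = N y :: sr N p k (p k) x := by
  rw [sr, Fin.lastCases_last, init_snoc', Fin.snoc_last]

theorem sr_castSucc {k : ℕ} (r : Fin (k + 1)) (x : Fin (k + 1) → V) (y : V) :
    sr N p (k + 1) (Fin.castSucc r) (Fin.snoc (α := fun _ => V) x y)
      = N (x (p k)) :: sr N p k r x := by
  rw [sr, Fin.lastCases_castSucc, init_snoc']

theorem exists_snoc {k : ℕ} (x : Fin (k + 2) → V) :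
    ∃ (x' : Fin (k + 1) → V) (y : V), x = Fin.snoc (α := fun _ => V) x' y :=
  ⟨Fin.init x, x (Fin.last _), (Fin.snoc_init_self x).symm⟩

/-- the one-rooted list is the two-rooted list and the root once more -/
theorem sr_perm : ∀ (k : ℕ) (r : Fin (k + 2)) (x : Fin (k + 2) → V),
    (sr N p (k + 1) r x).Perm (N (x r) :: sk N p (k + 1) x)
  | 0, r, x => by
    obtain ⟨x', y, rfl⟩ := exists_snoc x
    have hp0 : ∀ i : Fin 1, i = 0 := fun i => Subsingleton.elim _ _
    refine Fin.lastCases ?_ (fun i => ?_) r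
    · rw [sr_last, Fin.snoc_last]
      exact List.Perm.refl _
    · rw [sr_castSucc, Fin.snoc_castSucc, hp0 i, hp0 (p 0)]
      exact List.Perm.refl _
  | k + 1, r, x => by
    obtain ⟨x', y, rfl⟩ := exists_snoc x
    refine Fin.lastCases ?_ (fun i => ?_) r
    · rw [sr_last, Fin.snoc_last, sk_snoc]
      exact List.Perm.cons _ (sr_perm k (p (k + 1)) x')
    · rw [sr_castSucc, Fin.snoc_castSucc, sk_snoc]
      exact (List.Perm.cons _ (sr_perm k i x')).trans (List.Perm.swap _ _ _)

theorem sk_perm (k : ℕ) (x : Fin (k + 1) → V) (y : V) :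
    (sk N p (k + 1) (Fin.snoc (α := fun _ => V) x y)).Perm (sr N p k (p k) x) := by
  cases k with
  | zero => exact List.Perm.refl _
  | succ k =>
    rw [sk_snoc]
    exact (sr_perm N p k (p (k + 1)) x).symm

theorem good_inj : ∀ (k : ℕ) (x : Fin (k + 1) → V), Good N p k x → Function.Injective x
  | 0, x, _ => fun i j _ => Fin.ext (by have h1 := i.isLt; have h2 := j.isLt; omega)
  | k + 1, x, h => by
    obtain ⟨x', y, rfl⟩ := exists_snoc x
    rw [good_snoc] at h
    have hi := good_inj k x' h.1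
    intro i j
    refine Fin.lastCases ?_ (fun i' => ?_) i
    · refine Fin.lastCases ?_ (fun j' => ?_) j
      · intro _; rfl
      · intro e
        rw [Fin.snoc_last, Fin.snoc_castSucc] at e
        exact absurd ((mem_im x' y).mpr ⟨j', e.symm⟩) h.2.2
    · refine Fin.lastCases ?_ (fun j' => ?_) j
      · intro e
        rw [Fin.snoc_last, Fin.snoc_castSucc] at e
        exact absurd ((mem_im x' y).mpr ⟨i', e⟩) h.2.2
      · intro e
        rw [Fin.snoc_castSucc, Fin.snoc_castSucc] at e
        rw [hi e]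

/-- summation over the tuples of length `k + 2` -/
theorem sum_snoc {k : ℕ} (g : (Fin (k + 2) → V) → ℕ) :
    ∑ x : Fin (k + 2) → V, g x
      = ∑ x : Fin (k + 1) → V, ∑ y : V, g (Fin.snoc (α := fun _ => V) x y) := by
  rw [← Fintype.sum_prod_type' (f := fun (x : Fin (k + 1) → V) (y : V) =>
    g (Fin.snoc (α := fun _ => V) x y))]
  refine (Finset.sum_bij' (fun a _ => Fin.snoc (α := fun _ => V) a.1 a.2)
    (fun x _ => (Fin.init x, x (Fin.last _))) ?_ ?_ ?_ ?_ ?_).symm
  · intro a _; exact Finset.mem_univ _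
  · intro a _; exact Finset.mem_univ _
  · intro a _
    rw [init_snoc', Fin.snoc_last]
  · intro a _; exact Fin.snoc_init_self a
  · intro a _; rfl

/-- the sum over a set of tuples cut out by a condition which splits -/
theorem sum_split {k : ℕ} (P : (Fin (k + 2) → V) → Prop) (Q : (Fin (k + 1) → V) → Prop)
    [DecidablePred P] [DecidablePred Q] (Y : (Fin (k + 1) → V) → Finset V)
    (h : ∀ x y, P (Fin.snoc (α := fun _ => V) x y) ↔ Q x ∧ y ∈ Y x)
    (g : (Fin (k + 2) → V) → ℕ) :
    ∑ x ∈ Finset.univ.filter P, g x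
      = ∑ x ∈ Finset.univ.filter Q, ∑ y ∈ Y x, g (Fin.snoc (α := fun _ => V) x y) := by
  rw [Finset.sum_filter, sum_snoc, Finset.sum_filter]
  refine Finset.sum_congr rfl fun x _ => ?_
  by_cases hx : Q x
  · rw [if_pos hx]
    rw [← Finset.sum_filter_add_sum_filter_not Finset.univ (fun y => y ∈ Y x)]
    have h1 : ∑ y ∈ Finset.univ.filter (fun y => y ∉ Y x),
        (if P (Fin.snoc (α := fun _ => V) x y) then g (Fin.snoc (α := fun _ => V) x y) else 0)
        = 0 := by
      refine Finset.sum_eq_zero fun y hy => ?_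
      rw [if_neg]
      intro hc
      exact (Finset.mem_filter.mp hy).2 ((h x y).mp hc).2
    rw [h1, add_zero]
    have h2 : Finset.univ.filter (fun y => y ∈ Y x) = Y x := by
      ext y; simp
    rw [h2]
    refine Finset.sum_congr rfl fun y hy => ?_
    rw [if_pos ((h x y).mpr ⟨hx, hy⟩)]
  · rw [if_neg hx]
    refine Finset.sum_eq_zero fun y _ => ?_
    rw [if_neg]
    intro hc
    exact hx ((h x y).mp hc).1

end MP56e41fKX
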