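import Mathlib

/-!
The recursive number `K f Cs D`: blocks `S` avoiding the sets of the list `Cs`, one after the
other, then the rest `f`.
-/

open Finset
open scoped Nat

namespace MP56e41fKX

variable {V : Type*} [DecidableEq V]

/-- `K f [C1, ..., Cr] D`: the sum over pairwise disjoint `S1, ..., Sr` in `D` with `Sj`
disjoint from `Cj` of the product of the factorials of the sizes times `f` of the rest. -/
def K (f : Finset V → ℕ) : List (Finset V) → Finset V → ℕ
  | [], D => f D
  | C :: Cs, D => ∑ S ∈ (D \ C).powerset, (#S)! * K f Cs (D \ S)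

theorem K_nil (f : Finset V → ℕ) (D : Finset V) : K f [] D = f D := rfl

theorem K_cons (f : Finset V → ℕ) (C : Finset V) (Cs : List (Finset V)) (D : Finset V) :
    K f (C :: Cs) D = ∑ S ∈ (D \ C).powerset, (#S)! * K f Cs (D \ S) := rfl

theorem K_swap (f : Finset V → ℕ) (C C' : Finset V) (Cs : List (Finset V)) (D : Finset V) :
    K f (C :: C' :: Cs) D = K f (C' :: C :: Cs) D := by
  simp only [K_cons, Finset.mul_sum]
  rw [Finset.sum_comm' (s' := fun S' => ((D \ S') \ C).powerset) (t' := (D \ C').powerset)]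
  · refine Finset.sum_congr rfl fun S' _ => Finset.sum_congr rfl fun S _ => ?_
    rw [sdiff_right_comm D S S']
    ring
  · intro S S'
    simp only [Finset.mem_powerset, Finset.subset_sdiff, Finset.disjoint_left]
    constructor
    · rintro ⟨⟨h1, h2⟩, ⟨h3, h4⟩, h5⟩
      exact ⟨⟨⟨h1, fun a ha hb => h4 hb ha⟩, h2⟩, h3, h5⟩
    · rintro ⟨⟨⟨h1, h2⟩, h3⟩, h4, h5⟩
      exact ⟨⟨h1, h3⟩, ⟨h4, fun a ha hb => h2 hb ha⟩, h5⟩

theorem K_perm (f : Finset V → ℕ) {l l' : List (Finset V)} (h : l.Perm l') :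
    ∀ D : Finset V, K f l D = K f l' D := by
  induction h with
  | nil => intro D; rfl
  | cons C _ ih =>
    intro D
    rw [K_cons, K_cons]
    exact Finset.sum_congr rfl fun S _ => by rw [ih]
  | swap C C' l => intro D; exact K_swap f C' C l D
  | trans _ _ ih1 ih2 => intro D; rw [ih1, ih2]

theorem K_mono {f g : Finset V → ℕ} (h : ∀ D, f D ≤ g D) :
    ∀ (l : List (Finset V)) (D : Finset V), K f l D ≤ K g l D
  | [], D => h D
  | C :: Cs, D => by
    rw [K_cons, K_cons]
    exact Finset.sum_le_sum fun S _ => Nat.mul_le_mul_left _ (K_mono h Cs _)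

/-- the hockey stick identity in factorial form -/
theorem hockey (a h : ℕ) :
    (h + 1) * ∑ s ∈ range (a + 1), a.choose s * (s ! * (a + h - s)!) = (a + h + 1)! := by
  have h1 : ∀ s ∈ range (a + 1), a.choose s * (s ! * (a + h - s)!)
      = a ! * h ! * ((a - s) + h).choose h := by
    intro s hs
    have hs' : s ≤ a := Nat.lt_succ_iff.mp (Finset.mem_range.mp hs)
    have e1 : a + h - s = (a - s) + h := by omega
    have e2 := Nat.choose_mul_factorial_mul_factorial hs'
    have e3 := Nat.add_choose_mul_factorial_mul_factorial (a - s) h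
    rw [e1, ← e3, ← e2]
    ring
  rw [Finset.sum_congr rfl h1, ← Finset.mul_sum]
  have h2 : ∑ s ∈ range (a + 1), ((a - s) + h).choose h = (a + h + 1).choose (h + 1) := by
    rw [← Nat.sum_range_add_choose a h]
    exact Finset.sum_range_reflect (fun s => (s + h).choose h) (a + 1)
  rw [h2]
  have h3 := Nat.choose_mul_factorial_mul_factorial (n := a + h + 1) (k := h + 1) (by omega)
  have h4 : a + h + 1 - (h + 1) = a := by omega
  rw [h4, Nat.factorial_succ h] at h3
  rw [← h3]
  ring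

/-- IDENTITY (1). -/
theorem ident (D C : Finset V) :
    (#(D ∩ C) + 1) * ∑ S ∈ (D \ C).powerset, (#S)! * (#(D \ S))! = (#D + 1)! := by
  have h0 : #D = #(D \ C) + #(D ∩ C) := by
    rw [Finset.card_sdiff_add_card_inter]
  have h1 : ∑ S ∈ (D \ C).powerset, (#S)! * (#(D \ S))!
      = ∑ S ∈ (D \ C).powerset, (fun s => s ! * (#(D \ C) + #(D ∩ C) - s)!) (#S) := by
    refine Finset.sum_congr rfl fun S hS => ?_
    have hS' : S ⊆ D := (Finset.mem_powerset.mp hS).trans Finset.sdiff_subset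
    rw [Finset.card_sdiff_of_subset hS', h0]
  have h2 := Finset.sum_powerset_apply_card
    (fun s => s ! * (#(D \ C) + #(D ∩ C) - s)!) (x := D \ C)
  rw [h1, h2, h0, ← hockey]
  simp only [smul_eq_mul]

/-- the factorial of the size -/
def fact (D : Finset V) : ℕ := (#D)!

/-- the factorial of the size plus one -/
def fact1 (D : Finset V) : ℕ := (#D + 1)!

/-- STEP (2), one block. -/
theorem step_nil (D C : Finset V) :
    ∑ y ∈ D ∩ C, K fact [C] (D.erase y) ≤ K fact [] D := by
  rcases Finset.eq_empty_or_nonempty (D ∩ C) with h | h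
  · rw [h]; simp
  have key : ∀ y ∈ D ∩ C, #(D ∩ C) * K fact [C] (D.erase y) = (#D)! := by
    intro y hy
    have hyD : y ∈ D := (Finset.mem_inter.mp hy).1
    have h1 := ident (D.erase y) C
    have h2 : #((D.erase y) ∩ C) + 1 = #(D ∩ C) := by
      rw [Finset.erase_inter, Finset.card_erase_add_one hy]
    have h3 : #(D.erase y) + 1 = #D := Finset.card_erase_add_one hyD
    rw [h2, h3] at h1
    exact h1
  have hpos : 0 < #(D ∩ C) := Finset.card_pos.mpr h
  refine Nat.le_of_mul_le_mul_left ?_ hpos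
  rw [Finset.mul_sum, Finset.sum_congr rfl key, Finset.sum_const, smul_eq_mul]
  exact le_rfl

/-- STEP (2). -/
theorem step (C : Finset V) : ∀ (Cs : List (Finset V)) (D : Finset V),
    ∑ y ∈ D ∩ C, K fact (C :: Cs) (D.erase y) ≤ K fact Cs D
  | [], D => step_nil D C
  | C' :: Cs, D => by
    have e : ∀ y ∈ D ∩ C, K fact (C :: C' :: Cs) (D.erase y)
        = ∑ S ∈ ((D.erase y) \ C').powerset, (#S)! * K fact (C :: Cs) ((D.erase y) \ S) := by
      intro y _
      rw [K_swap, K_cons]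
    rw [Finset.sum_congr rfl e, K_cons]
    rw [Finset.sum_comm' (s' := fun S => (D \ S) ∩ C) (t' := (D \ C').powerset)]
    · refine Finset.sum_le_sum fun S _ => ?_
      rw [← Finset.mul_sum]
      refine Nat.mul_le_mul_left _ ?_
      have h := step C Cs (D \ S)
      refine le_trans (le_of_eq (Finset.sum_congr rfl fun y _ => ?_)) h
      rw [Finset.erase_sdiff_comm]
    · intro y S
      simp only [Finset.mem_powerset, Finset.mem_inter, Finset.mem_sdiff, Finset.subset_iff,
        Finset.mem_erase]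
      constructor
      · rintro ⟨⟨h1, h2⟩, h3⟩
        exact ⟨⟨⟨h1, fun h => (h3 h).1.1 rfl⟩, h2⟩, fun a ha => ⟨(h3 ha).1.2, (h3 ha).2⟩⟩
      · rintro ⟨⟨⟨h1, h2⟩, h3⟩, h4⟩
        exact ⟨⟨h1, h3⟩, fun a ha => ⟨⟨fun hay => h2 (hay ▸ ha), (h4 ha).1⟩, (h4 ha).2⟩⟩

/-- POTENTIAL (3), one block. -/
theorem pot_nil (D C : Finset V) :
    K fact1 [] D ≤ K fact [C] D + ∑ y ∈ D ∩ C, K fact1 [C] (D.erase y) := by
  have h1 := ident D C
  have h2 : ∀ y ∈ D ∩ C, K fact1 [C] (D.erase y)
      = ∑ S ∈ (D \ C).powerset, (#S)! * (#(D \ S))! := by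
    intro y hy
    have hyD : y ∈ D := (Finset.mem_inter.mp hy).1
    have hyC : y ∈ C := (Finset.mem_inter.mp hy).2
    rw [K_cons]
    have e : (D.erase y) \ C = D \ C := by
      ext a
      simp only [Finset.mem_sdiff, Finset.mem_erase]
      constructor
      · rintro ⟨⟨_, h⟩, h'⟩; exact ⟨h, h'⟩
      · rintro ⟨h, h'⟩; exact ⟨⟨fun hay => h' (hay ▸ hyC), h⟩, h'⟩
    rw [e]
    refine Finset.sum_congr rfl fun S hS => ?_
    have hyS : y ∉ S := fun h => (Finset.mem_sdiff.mp (Finset.mem_powerset.mp hS h)).2 hyC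
    have h3 : #((D.erase y) \ S) + 1 = #(D \ S) := by
      rw [Finset.erase_sdiff_comm]
      exact Finset.card_erase_add_one (Finset.mem_sdiff.mpr ⟨hyD, hyS⟩)
    rw [K_nil, fact1, h3]
  rw [Finset.sum_congr rfl h2, Finset.sum_const, smul_eq_mul]
  have h4 : K fact [C] D = ∑ S ∈ (D \ C).powerset, (#S)! * (#(D \ S))! := rfl
  rw [h4, K_nil, fact1, ← h1]
  apply le_of_eq
  ring

/-- POTENTIAL (3). -/
theorem pot (C : Finset V) : ∀ (Cs : List (Finset V)) (D : Finset V),
    K fact1 Cs D ≤ K fact (C :: Cs) D + ∑ y ∈ D ∩ C, K fact1 (C :: Cs) (D.erase y)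
  | [], D => pot_nil D C
  | C' :: Cs, D => by
    have e : ∀ y ∈ D ∩ C, K fact1 (C :: C' :: Cs) (D.erase y)
        = ∑ S ∈ ((D.erase y) \ C').powerset, (#S)! * K fact1 (C :: Cs) ((D.erase y) \ S) := by
      intro y _
      rw [K_swap, K_cons]
    rw [Finset.sum_congr rfl e, K_swap fact, K_cons fact1, K_cons fact]
    rw [Finset.sum_comm' (s' := fun S => (D \ S) ∩ C) (t' := (D \ C').powerset)]
    · rw [← Finset.sum_add_distrib]
      refine Finset.sum_le_sum fun S _ => ?_
      rw [← Finset.mul_sum, ← mul_add]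
      refine Nat.mul_le_mul_left _ ?_
      have h := pot C Cs (D \ S)
      refine le_trans h (Nat.add_le_add_left (le_of_eq (Finset.sum_congr rfl fun y _ => ?_)) _)
      rw [Finset.erase_sdiff_comm]
    · intro y S
      simp only [Finset.mem_powerset, Finset.mem_inter, Finset.mem_sdiff, Finset.subset_iff,
        Finset.mem_erase]
      constructor
      · rintro ⟨⟨h1, h2⟩, h3⟩
        exact ⟨⟨⟨h1, fun h => (h3 h).1.1 rfl⟩, h2⟩, fun a ha => ⟨(h3 ha).1.2, (h3 ha).2⟩⟩
      · rintro ⟨⟨⟨h1, h2⟩, h3⟩, h4⟩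
        exact ⟨⟨h1, h3⟩, fun a ha => ⟨⟨fun hay => h2 (hay ▸ ha), (h4 ha).1⟩, (h4 ha).2⟩⟩

end MP56e41fKX
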