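import Pool.Agent.Lib.MP_56e41f_co.KX.Emb

/-!
The two bounds for the rooted explorations.
-/

set_option linter.unusedSectionVars false

open Finset
open scoped Nat Classical

namespace MP56e41fKX

variable {V : Type*} [Fintype V] [DecidableEq V]
variable (N : V → Finset V) (p : (k : ℕ) → Fin (k + 1))

/-- the embeddings with root image `z` and the other images in `D` -/
noncomputable def F1 (k : ℕ) (r : Fin (k + 1)) (z : V) (D : Finset V) :
    Finset (Fin (k + 1) → V) :=
  Finset.univ.filter (fun x => Good N p k x ∧ x r = z ∧ ∀ j, j ≠ r → x j ∈ D)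

theorem mem_F1 {k : ℕ} {r : Fin (k + 1)} {z : V} {D : Finset V} {x : Fin (k + 1) → V} :
    x ∈ F1 N p k r z D ↔ Good N p k x ∧ x r = z ∧ ∀ j, j ≠ r → x j ∈ D := by
  simp [F1]

theorem forall_last_lt {k : ℕ} (P : Fin (k + 2) → Prop) :
    (∀ j, P j) ↔ P (Fin.last _) ∧ ∀ j : Fin (k + 1), P (Fin.castSucc j) := by
  constructor
  · intro h; exact ⟨h _, fun j => h _⟩
  · rintro ⟨h1, h2⟩ j
    exact Fin.lastCases h1 h2 j

theorem F1_castSucc {k : ℕ} (r : Fin (k + 1)) (z : V) (D : Finset V) (hz : z ∉ D)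
    (g : (Fin (k + 2) → V) → ℕ) :
    ∑ x ∈ F1 N p (k + 1) (Fin.castSucc r) z D, g x
      = ∑ x ∈ F1 N p k r z D, ∑ y ∈ (D \ im x) ∩ N (x (p k)),
          g (Fin.snoc (α := fun _ => V) x y) := by
  rw [F1, F1]
  refine sum_split _ _ _ (fun x y => ?_) g
  rw [good_snoc, Fin.snoc_castSucc, forall_last_lt, Fin.snoc_last]
  simp only [Fin.snoc_castSucc, Finset.mem_inter, Finset.mem_sdiff]
  constructor
  · rintro ⟨⟨h1, h2, h3⟩, h4, h5, h6⟩
    refine ⟨⟨h1, h4, fun j hj => h6 j fun e => hj (Fin.castSucc_injective _ e)⟩,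
      ⟨h5 (Fin.castSucc_lt_last r).ne', h3⟩, h2⟩
  · rintro ⟨⟨h1, h2, h3⟩, ⟨h4, h5⟩, h6⟩
    exact ⟨⟨h1, h6, h5⟩, h2, fun _ => h4, fun j hj => h3 j fun e => hj (by rw [e])⟩

/-- the last vertex as the root -/
theorem F1_last {k : ℕ} (hN : ∀ a b, a ∈ N b → b ∈ N a) (z : V) (D : Finset V) (hz : z ∉ D)
    (g : (Fin (k + 2) → V) → ℕ) :
    ∑ x ∈ F1 N p (k + 1) (Fin.last (k + 1)) z D, g x
      = ∑ y ∈ D ∩ N z, ∑ x ∈ F1 N p k (p k) y (D.erase y),
          g (Fin.snoc (α := fun _ => V) x z) := by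
  have h1 : ∑ x ∈ F1 N p (k + 1) (Fin.last (k + 1)) z D, g x
      = ∑ x ∈ Finset.univ.filter (fun x : Fin (k + 1) → V => Good N p k x ∧ z ∈ N (x (p k)) ∧
          ∀ j, x j ∈ D), ∑ y ∈ {z}, g (Fin.snoc (α := fun _ => V) x y) := by
    rw [F1]
    refine sum_split _ _ _ (fun x y => ?_) g
    rw [good_snoc, forall_last_lt, Fin.snoc_last]
    simp only [Fin.snoc_castSucc, Finset.mem_singleton]
    constructor
    · rintro ⟨⟨h1, h2, h3⟩, rfl, h5, h6⟩
      exact ⟨⟨h1, h2, fun j => h6 j (Fin.castSucc_lt_last j).ne⟩, rfl⟩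
    · rintro ⟨⟨h1, h2, h3⟩, rfl⟩
      refine ⟨⟨h1, h2, ?_⟩, rfl, fun e => absurd rfl e, fun j _ => h3 j⟩
      intro hc
      obtain ⟨j, hj⟩ := (mem_im x y).mp hc
      exact hz (hj ▸ h3 j)
  rw [h1]
  simp only [Finset.sum_singleton]
  rw [← Finset.sum_fiberwise_of_maps_to (g := fun x : Fin (k + 1) → V => x (p k))
    (t := D ∩ N z)]
  · refine Finset.sum_congr rfl fun y hy => Finset.sum_congr ?_ fun x _ => rfl
    ext x
    rw [mem_F1]
    simp only [Finset.mem_filter, Finset.mem_univ, true_and, Finset.mem_erase]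
    constructor
    · rintro ⟨⟨h1, h2, h3⟩, h4⟩
      refine ⟨h1, h4, fun j hj => ⟨fun e => hj ?_, h3 j⟩⟩
      exact good_inj N p k x h1 (e.trans h4.symm)
    · rintro ⟨h1, h2, h3⟩
      have h4 := Finset.mem_inter.mp hy
      refine ⟨⟨h1, ?_, fun j => ?_⟩, h2⟩
      · rw [h2]; exact hN _ _ h4.2
      · by_cases hj : j = p k
        · rw [hj, h2]; exact h4.1
        · exact (h3 j hj).2
  · intro x hx
    simp only [Finset.mem_filter, Finset.mem_univ, true_and] at hx
    exact Finset.mem_inter.mpr ⟨hx.2.2 _, hN _ _ hx.2.1⟩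

/-- the sum over `S` comes out -/
theorem out_S {k : ℕ} (r : Fin (k + 1)) (y : V) (D C : Finset V) (hy : y ∉ D)
    (f : Finset V → ℕ) (L : (Fin (k + 1) → V) → List (Finset V)) :
    ∑ x ∈ F1 N p k r y D, ∑ S ∈ ((D \ im x) \ C).powerset, (#S)! * K f (L x) ((D \ im x) \ S)
      = ∑ S ∈ (D \ C).powerset, (#S)! * ∑ x ∈ F1 N p k r y (D \ S),
          K f (L x) ((D \ S) \ im x) := by
  simp only [Finset.mul_sum]
  rw [Finset.sum_comm' (s' := fun S => F1 N p k r y (D \ S)) (t' := (D \ C).powerset)]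
  · refine Finset.sum_congr rfl fun S _ => Finset.sum_congr rfl fun x _ => ?_
    rw [sdiff_right_comm]
  · intro x S
    rw [mem_F1, mem_F1]
    simp only [Finset.mem_powerset, Finset.subset_iff, Finset.mem_sdiff]
    constructor
    · rintro ⟨⟨h1, h2, h3⟩, h4⟩
      refine ⟨⟨h1, h2, fun j hj => ⟨h3 j hj, fun hS => ?_⟩⟩, fun a ha => ⟨(h4 ha).1.1, (h4 ha).2⟩⟩
      exact (h4 hS).1.2 ((mem_im x _).mpr ⟨j, rfl⟩)
    · rintro ⟨⟨h1, h2, h3⟩, h4⟩
      refine ⟨⟨h1, h2, fun j hj => (h3 j hj).1⟩, fun a ha => ⟨⟨(h4 ha).1, fun hc => ?_⟩, (h4 ha).2⟩⟩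
      obtain ⟨j, hj⟩ := (mem_im x a).mp hc
      by_cases hjr : j = r
      · exact hy (by rw [← h2, ← hjr, hj]; exact (h4 ha).1)
      · exact (h3 j hjr).2 (hj ▸ ha)

/-- THE ONE-ROOTED BOUND. -/
theorem M1 (hN : ∀ a b, a ∈ N b → b ∈ N a) : ∀ (k : ℕ) (r : Fin (k + 1)) (z : V) (D : Finset V),
    z ∉ D → ∑ x ∈ F1 N p k r z D, K fact (sr N p k r x) (D \ im x) ≤ (#D)!
  | 0, r, z, D, hz => by
    have h0 : F1 N p 0 r z D ⊆ {fun _ => z} := by
      intro x hx
      rw [mem_F1] at hx
      rw [Finset.mem_singleton]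
      funext j
      have : j = r := Fin.ext (by have h1 := j.isLt; have h2 := r.isLt; omega)
      rw [this, hx.2.1]
    refine le_trans (Finset.sum_le_sum_of_subset h0) ?_
    rw [Finset.sum_singleton]
    have h1 : D \ im (fun _ : Fin (0 + 1) => z) = D := by
      ext a
      simp only [Finset.mem_sdiff, mem_im]
      constructor
      · exact fun h => h.1
      · intro h
        refine ⟨h, ?_⟩
        rintro ⟨_, rfl⟩
        exact hz h
    rw [h1]
    exact le_rfl
  | k + 1, r, z, D, hz => by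
    have hsd : ∀ (x : Fin (k + 1) → V) (y : V),
        D \ im (Fin.snoc (α := fun _ => V) x y) = (D \ im x).erase y := by
      intro x y
      rw [im_snoc]
      ext a
      simp only [Finset.mem_sdiff, Finset.mem_insert, Finset.mem_erase]
      tauto
    revert hsd
    refine Fin.lastCases ?_ (fun i => ?_) r
    · intro hsd
      rw [F1_last N p hN z D hz]
      have h1 : ∀ y ∈ D ∩ N z, ∑ x ∈ F1 N p k (p k) y (D.erase y),
          K fact (sr N p (k + 1) (Fin.last (k + 1)) (Fin.snoc (α := fun _ => V) x z))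
            (D \ im (Fin.snoc (α := fun _ => V) x z)) ≤ K fact [N z] (D.erase y) := by
        intro y hy
        have h2 : ∀ x ∈ F1 N p k (p k) y (D.erase y),
            K fact (sr N p (k + 1) (Fin.last (k + 1)) (Fin.snoc (α := fun _ => V) x z))
              (D \ im (Fin.snoc (α := fun _ => V) x z))
            = ∑ S ∈ (((D.erase y) \ im x) \ N z).powerset,
                (#S)! * K fact (sr N p k (p k) x) (((D.erase y) \ im x) \ S) := by
          intro x hx
          rw [mem_F1] at hx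
          have h3 : D \ im (Fin.snoc (α := fun _ => V) x z) = (D.erase y) \ im x := by
            rw [im_snoc]
            ext a
            simp only [Finset.mem_sdiff, Finset.mem_insert, Finset.mem_erase]
            constructor
            · rintro ⟨h4, h5⟩
              refine ⟨⟨fun e => h5 (Or.inr ((mem_im x a).mpr ⟨p k, ?_⟩)), h4⟩,
                fun e => h5 (Or.inr e)⟩
              rw [hx.2.1, e]
            · rintro ⟨⟨_, h4⟩, h5⟩
              refine ⟨h4, ?_⟩
              rintro (e | e)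
              · exact hz (e ▸ h4)
              · exact h5 e
          rw [h3, sr_last, K_cons]
        rw [Finset.sum_congr rfl h2, out_S N p (p k) y (D.erase y) (N z) (Finset.notMem_erase y D),
          K_cons]
        refine Finset.sum_le_sum fun S _ => Nat.mul_le_mul_left _ ?_
        refine M1 hN k (p k) y ((D.erase y) \ S) ?_
        intro h
        exact Finset.notMem_erase y D (Finset.mem_sdiff.mp h).1
      exact le_trans (Finset.sum_le_sum h1) (step_nil D (N z))
    · intro hsd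
      rw [F1_castSucc N p i z D hz]
      refine le_trans (Finset.sum_le_sum fun x _ => ?_) (M1 hN k i z D hz)
      refine le_trans (le_of_eq (Finset.sum_congr rfl fun y _ => ?_))
        (step (N (x (p k))) (sr N p k i x) (D \ im x))
      rw [sr_castSucc, hsd]

end MP56e41fKX
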