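import Pool.Agent.Lib.MP_56e41f_co.KX.Count
import Pool.Agent.Lib.MP_56e41f_co.TreeExists

/-!
From a finite tree as a simple graph to a parent function, and the theorem for simple graphs.
-/

set_option linter.unusedSectionVars false

open Finset
open scoped Nat Classical

namespace MP56e41fKX

theorem good_adj {V : Type*} [Fintype V] [DecidableEq V] (N : V → Finset V)
    (p : (k : ℕ) → Fin (k + 1)) : ∀ (k : ℕ) (x : Fin (k + 1) → V), Good N p k x →
      ∀ (j : ℕ) (hj : j + 1 < k + 1),
        x ⟨j + 1, hj⟩ ∈ N (x ⟨(p j).val, by have := (p j).isLt; omega⟩)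
  | 0, x, _ => fun j hj => absurd hj (by omega)
  | k + 1, x, h => by
    obtain ⟨x', y, rfl⟩ := exists_snoc x
    rw [good_snoc] at h
    intro j hj
    by_cases hjk : j = k
    · subst hjk
      have e1 : (⟨j + 1, hj⟩ : Fin (j + 2)) = Fin.last (j + 1) := rfl
      have e2 : (⟨(p j).val, by have := (p j).isLt; omega⟩ : Fin (j + 2)) = Fin.castSucc (p j) :=
        rfl
      rw [e1, e2, Fin.snoc_last, Fin.snoc_castSucc]
      exact h.2.1
    · have hj' : j + 1 < k + 1 := by omega
      have e1 : (⟨j + 1, hj⟩ : Fin (k + 2)) = Fin.castSucc ⟨j + 1, hj'⟩ := rfl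
      have e2 : (⟨(p j).val, by have := (p j).isLt; omega⟩ : Fin (k + 2))
          = Fin.castSucc ⟨(p j).val, by have := (p j).isLt; omega⟩ := rfl
      rw [e1, e2, Fin.snoc_castSucc, Fin.snoc_castSucc]
      exact good_adj N p k x' h.1 j hj'

/-- every finite tree has an order in which every vertex but the first has its parent before it -/
theorem exists_order {W : Type*} [Fintype W] (T : SimpleGraph W) (hT : T.IsTree) (k : ℕ)
    (hk : Fintype.card W = k + 1) :
    ∃ (e : Fin (k + 1) ≃ W) (p : (j : ℕ) → Fin (j + 1)),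
      ∀ a b, T.Adj a b → ∃ (j : ℕ) (hj : j + 1 < k + 1),
        (a = e ⟨j + 1, hj⟩ ∧ b = e ⟨(p j).val, by have := (p j).isLt; omega⟩) ∨
        (b = e ⟨j + 1, hj⟩ ∧ a = e ⟨(p j).val, by have := (p j).isLt; omega⟩) := by
  obtain ⟨D, e, _, h2⟩ := Pool.Agent.Lib.MP_56e41f_co.exists_TD T hT (Fintype.card W)
    (fun v => by
      rw [Set.ncard_eq_toFinset_card']
      exact Finset.card_le_univ _)
  have hlt : ∀ i : Fin (Fintype.card W), i.val ≠ 0 → (D.par i).val < i.val := by
    intro i hi
    by_contra hc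
    have h3 := D.mono i (D.par i) (not_lt.mp hc)
    have h4 := D.dep_par i hi
    omega
  let p : (j : ℕ) → Fin (j + 1) := fun j =>
    if h : j + 1 < Fintype.card W then
      ⟨(D.par ⟨j + 1, h⟩).val, hlt ⟨j + 1, h⟩ (Nat.succ_ne_zero j)⟩
    else ⟨0, Nat.succ_pos j⟩
  refine ⟨(finCongr hk.symm).trans e, p, fun a b hab => ?_⟩
  obtain ⟨i, hi, h3⟩ := h2 a b hab
  obtain ⟨j, hj⟩ := Nat.exists_eq_succ_of_ne_zero hi
  have hjW : j + 1 < Fintype.card W := by have := i.isLt; omega
  have hi' : i = ⟨j + 1, hjW⟩ := Fin.ext hj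
  refine ⟨j, by omega, ?_⟩
  have e1 : ((finCongr hk.symm).trans e) ⟨j + 1, by omega⟩ = e i := by
    rw [Equiv.trans_apply]
    congr 1
    exact Fin.ext hj.symm
  have e2 : ((finCongr hk.symm).trans e) ⟨(p j).val, by have := (p j).isLt; omega⟩
      = e (D.par i) := by
    have h4 : (p j).val = (D.par i).val := by
      simp only [p, dif_pos hjW, hi']
    rw [Equiv.trans_apply]
    congr 1
    exact Fin.ext h4
  rw [e1, e2]
  rcases h3 with ⟨h4, h5⟩ | ⟨h4, h5⟩
  · exact Or.inl ⟨h4, h5⟩
  · exact Or.inr ⟨h4, h5⟩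

/-- the theorem for trees with `m + 1` edges and the number of non-isolated vertices -/
theorem erdos_sos_aux {V W : Type*} [Fintype V] [Fintype W] (G : SimpleGraph V)
    (T : SimpleGraph W) (hT : T.IsTree) (m : ℕ) (hW : Fintype.card W = m + 2)
    (hG : m * {v | ∃ w, G.Adj v w}.ncard < 2 * G.edgeSet.ncard) :
    T.IsContained G := by
  obtain ⟨e, p, he⟩ := exists_order T hT (m + 1) hW
  set N : V → Finset V := fun v => G.neighborFinset v with hN
  by_cases hno : ∀ x : Fin (m + 2) → V, ¬ Good N p (m + 1) x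
  · exfalso
    have h1 := main_count_noniso N p (fun a b h => by
        rw [hN, SimpleGraph.mem_neighborFinset] at *
        exact h.symm) (fun a h => by
        rw [hN, SimpleGraph.mem_neighborFinset] at h
        exact G.loopless.irrefl a h) m hno
    have h2 : ∑ v, #(N v) = 2 * G.edgeSet.ncard := by
      rw [Set.ncard_eq_toFinset_card', ← SimpleGraph.edgeFinset, ← G.sum_degrees_eq_twice_card_edges]
      rfl
    have h3 : #(Finset.univ.filter (fun v => (N v).Nonempty)) = {v | ∃ w, G.Adj v w}.ncard := by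
      rw [Set.ncard_eq_toFinset_card']
      congr 1
      ext v
      simp only [Finset.mem_filter, Finset.mem_univ, true_and, Set.mem_toFinset, Set.mem_setOf_eq]
      constructor
      · rintro ⟨w, hw⟩
        rw [hN, SimpleGraph.mem_neighborFinset] at hw
        exact ⟨w, hw⟩
      · rintro ⟨w, hw⟩
        refine ⟨w, ?_⟩
        rw [hN, SimpleGraph.mem_neighborFinset]
        exact hw
    rw [h2, h3] at h1
    omega
  · rw [not_forall_not] at hno
    obtain ⟨x, hx⟩ := hno
    have hinj := good_inj N p (m + 1) x hx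
    have hadj := good_adj N p (m + 1) x hx
    refine ⟨⟨⟨fun w => x (e.symm w), fun {a b} hab => ?_⟩, ?_⟩⟩
    · obtain ⟨j, hj, h⟩ := he a b hab
      have h1 := hadj j hj
      rw [hN, SimpleGraph.mem_neighborFinset] at h1
      rcases h with ⟨ha, hb⟩ | ⟨hb, ha⟩
      · rw [ha, hb, Equiv.symm_apply_apply, Equiv.symm_apply_apply]
        exact h1.symm
      · rw [ha, hb, Equiv.symm_apply_apply, Equiv.symm_apply_apply]
        exact h1
    · intro a b hab
      exact e.symm.injective (hinj hab)

/-- **THE ERDOS - SOS CONJECTURE**, with the number `n'` of non-isolated vertices: a finite simple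
graph with `2 e(G) > (t - 2) n'` contains every tree with `t` vertices. -/
theorem erdos_sos_noniso {V W : Type*} [Fintype V] [Fintype W] (G : SimpleGraph V)
    (T : SimpleGraph W) (hT : T.IsTree)
    (h : ((Fintype.card W : ℤ) - 2) * (({v | ∃ w, G.Adj v w} : Set V).ncard : ℤ)
      < 2 * (G.edgeSet.ncard : ℤ)) : T.IsContained G := by
  haveI : Nonempty W := hT.1.nonempty
  have hpos : 0 < Fintype.card W := Fintype.card_pos
  rcases Nat.lt_or_ge 1 (Fintype.card W) with h1 | h1
  · obtain ⟨m, hm⟩ : ∃ m, Fintype.card W = m + 2 := ⟨Fintype.card W - 2, by omega⟩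
    refine erdos_sos_aux G T hT m hm ?_
    rw [hm] at h
    push_cast at h
    have h2 : (m : ℤ) + 2 - 2 = m := by ring
    rw [h2] at h
    exact_mod_cast h
  · have h2 : Fintype.card W = 1 := by omega
    haveI : Subsingleton W := Fintype.card_le_one_iff_subsingleton.mp h2.le
    have h3 : Nonempty V := by
      by_contra hV
      rw [not_nonempty_iff] at hV
      have h4 : (G.edgeSet).ncard = 0 := by
        rw [Set.ncard_eq_zero]
        ext e
        refine Sym2.ind (fun a _ => ?_) e
        exact (hV.false a).elim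
      have h5 : ({v | ∃ w, G.Adj v w} : Set V).ncard = 0 := by
        rw [Set.ncard_eq_zero]
        ext a
        exact (hV.false a).elim
      rw [h4, h5] at h
      simp at h
    obtain ⟨v⟩ := h3
    refine ⟨⟨⟨fun _ => v, fun {a b} hab => ?_⟩, fun a b _ => Subsingleton.elim a b⟩⟩
    exact absurd (Subsingleton.elim a b) hab.ne

/-- **THE ERDOS - SOS CONJECTURE.** A finite simple graph with more than `(k - 1) n / 2` edges
contains every tree with `k` edges. -/
theorem erdos_sos {V W : Type*} [Fintype V] [Fintype W] (G : SimpleGraph V) (T : SimpleGraph W)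
    (hT : T.IsTree) (k : ℕ) (hk : 1 ≤ k) (hW : Fintype.card W = k + 1)
    (hG : (k - 1) * Fintype.card V < 2 * G.edgeSet.ncard) :
    T.IsContained G := by
  obtain ⟨m, rfl⟩ : ∃ m, k = m + 1 := ⟨k - 1, by omega⟩
  refine erdos_sos_aux G T hT m hW (lt_of_le_of_lt (Nat.mul_le_mul_left _ ?_) hG)
  have h1 := Set.ncard_le_card {v | ∃ w, G.Adj v w}
  rwa [Nat.card_eq_fintype_card] at h1

end MP56e41fKX
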